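import Pool.Agent.Lib.MP_c642b3_mp.Defs
import Pool.Agent.Lib.MP_c642b3_mp.RotDefs
import Pool.Agent.Lib.MP_c642b3_mp.RotMain

/-!
# `m_outer ≠ m_B` among rotationally symmetric extensions

Let `Σ = {|x| = ρ₁}` be a sphere outside the horizon (`ρ₁ > m / 2`) of the time-symmetric
Schwarzschild slice of mass `m > 0`. Among the rotationally symmetric extensions across `Σ`
(with arbitrary second fundamental form, `μ ≥ |J|`) the least mass of an outer-minimizing one is
`m`, while the infimum of the masses of those containing no apparent horizon (among all closed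
surfaces, rotationally symmetric or not) is `0`.
-/

namespace Pool.Agent.Results.MP_c642b3_mp.RotSymDisproof

open Pool.Agent.Lib.MP_c642b3_mp

theorem result (m ρ₁ : ℝ) (hm : 0 < m) (hρ : m / 2 < ρ₁) :
    IsLeast (outerMasses m ρ₁) m ∧ IsGLB (noHorizonMasses m ρ₁) 0 :=
  ⟨outerMasses_least hm hρ, noHorizonMasses_inf hm hρ⟩

end Pool.Agent.Results.MP_c642b3_mp.RotSymDisproof
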