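import Pool.Agent.Lib.MP_c642b3_mp.Defs
import Pool.Agent.Lib.MP_c642b3_mp.Main

/-!
# Bartnik's mass with one-sided horizons vanishes

Initial data satisfying `μ ≥ |J|` that are exactly Schwarzschild near infinity can be modified near
infinity, keeping `μ ≥ |J|` and creating no apparent horizon (`H_S = tr_S h`) at all, so that the
total mass becomes arbitrarily small. Hence the infimum `m_B(Σ)` is `≤ 0` for every surface `Σ`
outside which the given data contain no apparent horizon.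
-/

namespace Pool.Agent.Results.MP_c642b3_mp.SmallMassExtensions

open Pool.Agent.Lib.MP_c642b3_mp

theorem result (C : Set E3) (hC : IsClosed C) (m ρ₀ ρ₁ ε : ℝ) (hm : 0 < m)
    (hρ₀ : m / 2 < ρ₀) (h01 : ρ₀ < ρ₁) (hε : 0 < ε) (hCb : ∀ x ∈ C, ‖x‖ < ρ₀)
    (g₀ h₀ : TF) (hdata : IsData C g₀ h₀)
    (hS : ∀ x : E3, ρ₀ ≤ ‖x‖ → g₀ x = schw m x ∧ h₀ x = 0) :
    ∃ (g h : TF) (M : ℝ), IsData C g h ∧
      (∀ x : E3, ‖x‖ ≤ ρ₁ → g x = g₀ x ∧ h x = h₀ x) ∧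
      SchwarzschildEnd g h M ∧ 0 < M ∧ M < ε ∧
      ∀ f : E3 → ℝ, IsApparentHorizon C g h f → ∀ x ∉ C, f x = 0 → ‖x‖ ≤ ρ₀ :=
  small_mass_extension C hC m ρ₀ ρ₁ ε hm hρ₀ h01 hε hCb g₀ h₀ hdata hS

end Pool.Agent.Results.MP_c642b3_mp.SmallMassExtensions
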